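import Mathlib

/-! # Product weights on a finite product of a finite set

`Ex w f` is the expectation of `f (ω)` when the coordinates `ω i` are independent with weights `w`.
-/

set_option linter.unusedSectionVars false
set_option linter.unusedVariables false

namespace Pool.Agent.Q299.PW

open Finset

variable {ι α : Type*} [Fintype ι] [DecidableEq ι] [Fintype α] [DecidableEq α]

/-- Expectation of `f` under the product of the weights `w`. -/
noncomputable def Ex (w : α → ℝ) (f : (ι → α) → ℝ) : ℝ := ∑ ω, (∏ i, w (ω i)) * f ω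

open Classical in
/-- Probability. -/
noncomputable def Pr (w : α → ℝ) (A : (ι → α) → Prop) : ℝ := Ex w fun ω => if A ω then 1 else 0

variable {w : α → ℝ}

lemma wt_nonneg (hw : ∀ a, 0 ≤ w a) (ω : ι → α) : 0 ≤ ∏ i, w (ω i) :=
  prod_nonneg fun i _ => hw _

lemma Ex_mono (hw : ∀ a, 0 ≤ w a) {f g : (ι → α) → ℝ} (h : ∀ ω, f ω ≤ g ω) :
    Ex w f ≤ Ex w g :=
  sum_le_sum fun ω _ => mul_le_mul_of_nonneg_left (h ω) (wt_nonneg hw ω)

lemma Ex_nonneg (hw : ∀ a, 0 ≤ w a) {f : (ι → α) → ℝ} (h : ∀ ω, 0 ≤ f ω) : 0 ≤ Ex w f :=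
  sum_nonneg fun ω _ => mul_nonneg (wt_nonneg hw ω) (h ω)

lemma Ex_add (f g : (ι → α) → ℝ) : Ex w (fun ω => f ω + g ω) = Ex w f + Ex w g := by
  unfold Ex
  rw [← sum_add_distrib]
  exact sum_congr rfl fun ω _ => by ring

lemma Ex_smul (c : ℝ) (f : (ι → α) → ℝ) : Ex w (fun ω => c * f ω) = c * Ex w f := by
  unfold Ex
  rw [mul_sum]
  exact sum_congr rfl fun ω _ => by ring

lemma Ex_sum {κ : Type*} (s : Finset κ) (f : κ → (ι → α) → ℝ) :
    Ex w (fun ω => ∑ x ∈ s, f x ω) = ∑ x ∈ s, Ex w (f x) := by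
  unfold Ex
  simp_rw [mul_sum]
  rw [sum_comm]

lemma Ex_prod (f : ι → α → ℝ) : Ex w (fun ω => ∏ i, f i (ω i)) = ∏ i, ∑ a, w a * f i a := by
  rw [prod_univ_sum, Fintype.piFinset_univ]
  unfold Ex
  exact sum_congr rfl fun ω _ => by rw [prod_mul_distrib]

lemma Ex_prod_on (hw1 : ∑ a, w a = 1) (D : Finset ι) (f : ι → α → ℝ) :
    Ex w (fun ω => ∏ i ∈ D, f i (ω i)) = ∏ i ∈ D, ∑ a, w a * f i a := by
  have h1 : ∀ ω : ι → α, ∏ i ∈ D, f i (ω i) =
      ∏ i, (fun i a => if i ∈ D then f i a else 1) i (ω i) := by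
    intro ω
    simp only
    rw [prod_ite_mem, univ_inter]
  rw [show (fun ω : ι → α => ∏ i ∈ D, f i (ω i)) =
      fun ω => ∏ i, (fun i a => if i ∈ D then f i a else 1) i (ω i) from funext h1,
    Ex_prod (fun i a => if i ∈ D then f i a else 1)]
  have h2 : ∀ i, ∑ a, w a * (if i ∈ D then f i a else 1) =
      if i ∈ D then ∑ a, w a * f i a else 1 := by
    intro i
    split_ifs with h
    · rfl
    · simpa using hw1
  simp_rw [h2]
  rw [prod_ite_mem, univ_inter]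

lemma Ex_const (hw1 : ∑ a, w a = 1) (c : ℝ) : Ex w (fun _ : ι → α => c) = c := by
  have h := Ex_prod_on hw1 (∅ : Finset ι) (fun _ _ => (1 : ℝ))
  simp only [prod_empty] at h
  have h2 := Ex_smul (w := w) c (fun _ : ι → α => (1 : ℝ))
  rw [h, mul_one] at h2
  simpa using h2

lemma Pr_nonneg (hw : ∀ a, 0 ≤ w a) (A : (ι → α) → Prop) : 0 ≤ Pr w A :=
  Ex_nonneg hw fun ω => by split_ifs <;> norm_num

lemma Pr_mono (hw : ∀ a, 0 ≤ w a) {A B : (ι → α) → Prop} (h : ∀ ω, A ω → B ω) :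
    Pr w A ≤ Pr w B := by
  refine Ex_mono hw fun ω => ?_
  by_cases h1 : A ω
  · rw [if_pos h1, if_pos (h ω h1)]
  · rw [if_neg h1]
    split_ifs <;> norm_num

lemma Pr_le_Ex (hw : ∀ a, 0 ≤ w a) {A : (ι → α) → Prop} {f : (ι → α) → ℝ}
    (hf : ∀ ω, 0 ≤ f ω) (h : ∀ ω, A ω → 1 ≤ f ω) : Pr w A ≤ Ex w f := by
  refine Ex_mono hw fun ω => ?_
  split_ifs with h1
  · exact h ω h1
  · exact hf ω

lemma Pr_exists_le (hw : ∀ a, 0 ≤ w a) {κ : Type*} (s : Finset κ) (A : κ → (ι → α) → Prop) :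
    Pr w (fun ω => ∃ x ∈ s, A x ω) ≤ ∑ x ∈ s, Pr w (A x) := by
  classical
  unfold Pr
  rw [← Ex_sum]
  refine Ex_mono hw fun ω => ?_
  split_ifs with h
  · obtain ⟨x, hx, h1⟩ := h
    have h2 : (if A x ω then (1 : ℝ) else 0) ≤ ∑ x ∈ s, (if A x ω then (1 : ℝ) else 0) :=
      single_le_sum (f := fun x => if A x ω then (1 : ℝ) else 0)
        (fun y _ => by split_ifs <;> norm_num) hx
    rw [if_pos h1] at h2
    exact h2
  · exact sum_nonneg fun y _ => by split_ifs <;> norm_num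

lemma Pr_or_le (hw : ∀ a, 0 ≤ w a) (A B : (ι → α) → Prop) :
    Pr w (fun ω => A ω ∨ B ω) ≤ Pr w A + Pr w B := by
  classical
  unfold Pr
  rw [← Ex_add]
  refine Ex_mono hw fun ω => ?_
  by_cases h1 : A ω <;> by_cases h2 : B ω <;> simp [h1, h2]

lemma Pr_not (hw1 : ∑ a, w a = 1) (A : (ι → α) → Prop) :
    Pr w (fun ω => ¬ A ω) = 1 - Pr w A := by
  classical
  rw [eq_sub_iff_add_eq]
  unfold Pr
  rw [← Ex_add]
  refine Eq.trans ?_ (Ex_const (ι := ι) (w := w) hw1 1)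
  unfold Ex
  refine sum_congr rfl fun ω _ => ?_
  congr 1
  by_cases h : A ω <;> simp [h]

/-- Number of coordinates in `D` with value in `L`. -/
def cnt (L : Finset α) (D : Finset ι) (ω : ι → α) : ℕ := (D.filter fun i => ω i ∈ L).card

lemma exp_cnt (L : Finset α) (D : Finset ι) (ω : ι → α) (t : ℝ) :
    Real.exp (t * cnt L D ω) = ∏ i ∈ D, (if ω i ∈ L then Real.exp t else 1) := by
  unfold cnt
  rw [prod_ite, prod_const, prod_const_one, mul_one, ← Real.exp_nat_mul, mul_comm]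

lemma sum_w_ite (hw1 : ∑ a, w a = 1) (L : Finset α) (x : ℝ) :
    ∑ a, w a * (if a ∈ L then x else 1) = 1 + (∑ a ∈ L, w a) * (x - 1) := by
  have h1 : ∀ a, w a * (if a ∈ L then x else 1) = w a + (if a ∈ L then w a * (x - 1) else 0) := by
    intro a
    split_ifs <;> ring
  simp_rw [h1]
  rw [sum_add_distrib, hw1, sum_ite_mem, univ_inter, sum_mul]

/-- Moment generating function of a count. -/
lemma Ex_exp_cnt (hw1 : ∑ a, w a = 1) (L : Finset α) (D : Finset ι) (t : ℝ) :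
    Ex w (fun ω => Real.exp (t * cnt L D ω)) =
      (1 + (∑ a ∈ L, w a) * (Real.exp t - 1)) ^ D.card := by
  simp_rw [exp_cnt]
  rw [Ex_prod_on hw1 D (fun _ a => if a ∈ L then Real.exp t else 1)]
  simp_rw [sum_w_ite hw1]
  rw [prod_const]

lemma base_nonneg (hw : ∀ a, 0 ≤ w a) (hw1 : ∑ a, w a = 1) (L : Finset α) {x : ℝ} (hx : 0 ≤ x) :
    0 ≤ 1 + (∑ a ∈ L, w a) * (x - 1) := by
  rw [← sum_w_ite hw1]
  refine sum_nonneg fun a _ => mul_nonneg (hw a) ?_
  split_ifs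
  · exact hx
  · norm_num

lemma base_pow_le (hw : ∀ a, 0 ≤ w a) (hw1 : ∑ a, w a = 1) (L : Finset α) {x : ℝ} (hx : 0 ≤ x)
    (m : ℕ) : (1 + (∑ a ∈ L, w a) * (x - 1)) ^ m ≤ Real.exp (m * ((∑ a ∈ L, w a) * (x - 1))) := by
  rw [Real.exp_nat_mul]
  refine pow_le_pow_left₀ (base_nonneg hw hw1 L hx) ?_ m
  have := Real.add_one_le_exp ((∑ a ∈ L, w a) * (x - 1))
  linarith

/-- Lower tail. -/
lemma Pr_cnt_le (hw : ∀ a, 0 ≤ w a) (hw1 : ∑ a, w a = 1) (L : Finset α) (D : Finset ι)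
    {t r : ℝ} (ht : 0 ≤ t) :
    Pr w (fun ω => (cnt L D ω : ℝ) ≤ r) ≤
      Real.exp (t * r - D.card * ((∑ a ∈ L, w a) * (1 - Real.exp (-t)))) := by
  have h1 : Pr w (fun ω => (cnt L D ω : ℝ) ≤ r) ≤
      Ex w (fun ω => Real.exp (t * r) * Real.exp (-t * cnt L D ω)) := by
    refine Pr_le_Ex hw (fun ω => by positivity) fun ω h => ?_
    rw [← Real.exp_add]
    apply Real.one_le_exp
    nlinarith
  refine h1.trans ?_
  rw [Ex_smul, Ex_exp_cnt hw1]
  have h2 := base_pow_le hw hw1 L (Real.exp_pos (-t)).le D.card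
  calc Real.exp (t * r) * (1 + (∑ a ∈ L, w a) * (Real.exp (-t) - 1)) ^ D.card
      ≤ Real.exp (t * r) * Real.exp (D.card * ((∑ a ∈ L, w a) * (Real.exp (-t) - 1))) :=
        mul_le_mul_of_nonneg_left h2 (Real.exp_pos _).le
    _ = _ := by
        rw [← Real.exp_add]
        congr 1
        ring

/-- Three disjoint blocks of coordinates. -/
lemma Ex_prod_three (hw1 : ∑ a, w a = 1) {D₁ D₂ D₃ : Finset ι} (h12 : Disjoint D₁ D₂)
    (h13 : Disjoint D₁ D₃) (h23 : Disjoint D₂ D₃) (f g h : α → ℝ) :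
    Ex w (fun ω : ι → α => (∏ i ∈ D₁, f (ω i)) * (∏ i ∈ D₂, g (ω i)) * ∏ i ∈ D₃, h (ω i)) =
      (∑ a, w a * f a) ^ D₁.card * (∑ a, w a * g a) ^ D₂.card * (∑ a, w a * h a) ^ D₃.card := by
  have h3 : Disjoint (D₁ ∪ D₂) D₃ := disjoint_union_left.mpr ⟨h13, h23⟩
  have h1 : ∀ ω : ι → α, (∏ i ∈ D₁, f (ω i)) * (∏ i ∈ D₂, g (ω i)) * ∏ i ∈ D₃, h (ω i) =
      ∏ i ∈ (D₁ ∪ D₂) ∪ D₃, (fun i a => if i ∈ D₁ then f a else if i ∈ D₂ then g a else h a)
        i (ω i) := by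
    intro ω
    rw [prod_union h3, prod_union h12]
    congr 1
    · congr 1
      · refine prod_congr rfl fun i hi => ?_
        simp only [if_pos hi]
      · refine prod_congr rfl fun i hi => ?_
        have : i ∉ D₁ := fun hh => disjoint_left.mp h12 hh hi
        simp only [if_neg this, if_pos hi]
    · refine prod_congr rfl fun i hi => ?_
      have h4 : i ∉ D₁ := fun hh => disjoint_left.mp h13 hh hi
      have h5 : i ∉ D₂ := fun hh => disjoint_left.mp h23 hh hi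
      simp only [if_neg h4, if_neg h5]
  rw [show (fun ω : ι → α => (∏ i ∈ D₁, f (ω i)) * (∏ i ∈ D₂, g (ω i)) * ∏ i ∈ D₃, h (ω i)) =
      fun ω => ∏ i ∈ (D₁ ∪ D₂) ∪ D₃, (fun i a => if i ∈ D₁ then f a else if i ∈ D₂ then g a
        else h a) i (ω i) from funext h1,
    Ex_prod_on hw1 _ (fun i a => if i ∈ D₁ then f a else if i ∈ D₂ then g a else h a),
    prod_union h3, prod_union h12]
  congr 1
  · congr 1
    · rw [← prod_const]
      refine prod_congr rfl fun i hi => ?_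
      simp only [if_pos hi]
    · rw [← prod_const]
      refine prod_congr rfl fun i hi => ?_
      have : i ∉ D₁ := fun hh => disjoint_left.mp h12 hh hi
      simp only [if_neg this, if_pos hi]
  · rw [← prod_const]
    refine prod_congr rfl fun i hi => ?_
    have h4 : i ∉ D₁ := fun hh => disjoint_left.mp h13 hh hi
    have h5 : i ∉ D₂ := fun hh => disjoint_left.mp h23 hh hi
    simp only [if_neg h4, if_neg h5]

/-- Markov's inequality. -/
lemma Pr_ge_le (hw : ∀ a, 0 ≤ w a) {f : (ι → α) → ℝ} (hf : ∀ ω, 0 ≤ f ω) {c : ℝ} (hc : 0 < c) :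
    Pr w (fun ω => c ≤ f ω) ≤ Ex w f / c := by
  have h1 : Pr w (fun ω => c ≤ f ω) ≤ Ex w (fun ω => c⁻¹ * f ω) := by
    refine Pr_le_Ex hw (fun ω => mul_nonneg (inv_nonneg.mpr hc.le) (hf ω)) fun ω h => ?_
    rw [inv_mul_eq_div, one_le_div hc]
    exact h
  rw [Ex_smul, inv_mul_eq_div] at h1
  exact h1

/-- Chebyshev's inequality below half of the mean. -/
lemma Pr_le_half (hw : ∀ a, 0 ≤ w a) (hw1 : ∑ a, w a = 1) (f : (ι → α) → ℝ) {μ : ℝ} (hμ : 0 < μ)
    (hmean : Ex w f = μ) : Pr w (fun ω => f ω ≤ μ / 2) ≤ 4 * (Ex w (fun ω => f ω ^ 2) / μ ^ 2 - 1) := by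
  have h1 : Pr w (fun ω => f ω ≤ μ / 2) ≤ Ex w (fun ω => (4 / μ ^ 2) * (f ω - μ) ^ 2) := by
    refine Pr_le_Ex hw (fun ω => by positivity) fun ω h => ?_
    rw [div_mul_eq_mul_div, one_le_div (by positivity)]
    nlinarith
  refine h1.trans (le_of_eq ?_)
  rw [Ex_smul]
  have h2 : (fun ω : ι → α => (f ω - μ) ^ 2) =
      fun ω => (f ω ^ 2 + (-2 * μ) * f ω) + μ ^ 2 := by
    funext ω; ring
  rw [h2, Ex_add, Ex_add, Ex_smul, Ex_const hw1, hmean]
  field_simp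
  ring

end Pool.Agent.Q299.PW
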