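import Mathlib
import Pool.Agent.Q299.PW.Basic

/-! # From i.i.d. real costs to product weights on levels, and quantiles of atomless laws -/

set_option linter.unusedSectionVars false
set_option linter.unusedVariables false

namespace Pool.Agent.Q299.PW

open Finset MeasureTheory

variable {ι α : Type*} [Fintype ι] [DecidableEq ι] [Fintype α] [DecidableEq α]

/-- The law of the levels `ℓ (C i)` of i.i.d. costs `C i ~ μ`. -/
lemma pi_levels [MeasurableSpace α] [MeasurableSingletonClass α] (μ : Measure ℝ)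
    [IsProbabilityMeasure μ] (ℓ : ℝ → α) (hℓ : Measurable ℓ) (A : (ι → α) → Prop) :
    (Measure.pi fun _ : ι => μ) {C | A fun i => ℓ (C i)} =
      ENNReal.ofReal (Pr (fun a => μ.real (ℓ ⁻¹' {a})) A) := by
  classical
  have h1 : {C : ι → ℝ | A fun i => ℓ (C i)} =
      ⋃ ω ∈ (univ.filter fun ω : ι → α => A ω), Set.pi Set.univ fun i => ℓ ⁻¹' {ω i} := by
    ext C
    simp only [Set.mem_iUnion, mem_filter, mem_univ, true_and, Set.mem_pi, Set.mem_univ,
      forall_true_left, Set.mem_preimage, Set.mem_singleton_iff, exists_prop, Set.mem_ofPred_eq]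
    constructor
    · intro h
      exact ⟨fun i => ℓ (C i), h, fun i => rfl⟩
    · rintro ⟨ω, h, h2⟩
      have : (fun i => ℓ (C i)) = ω := funext h2
      rwa [this]
  rw [h1, measure_biUnion_finset]
  · have h2 : ∀ ω ∈ (univ.filter fun ω : ι → α => A ω),
        (Measure.pi fun _ : ι => μ) (Set.pi Set.univ fun i => ℓ ⁻¹' {ω i}) =
          ENNReal.ofReal (∏ i, μ.real (ℓ ⁻¹' {ω i})) := by
      intro ω _
      rw [Measure.pi_pi, ENNReal.ofReal_prod_of_nonneg (fun i _ => measureReal_nonneg)]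
      refine prod_congr rfl fun i _ => ?_
      rw [ofReal_measureReal]
    rw [sum_congr rfl h2, ← ENNReal.ofReal_sum_of_nonneg
      (fun ω _ => prod_nonneg fun i _ => measureReal_nonneg)]
    congr 1
    unfold Pr Ex
    rw [sum_filter]
    refine sum_congr rfl fun ω _ => ?_
    dsimp only
    by_cases h : A ω
    · rw [if_pos h, if_pos h, mul_one]
    · rw [if_neg h, if_neg h, mul_zero]
  · intro ω _ ω' _ hne
    rw [Function.onFun, Set.disjoint_left]
    intro C h h'
    apply hne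
    funext i
    have h3 := h i trivial
    have h4 := h' i trivial
    simp only [Set.mem_preimage, Set.mem_singleton_iff] at h3 h4
    rw [← h3, ← h4]
  · intro ω _
    exact MeasurableSet.univ_pi fun i => hℓ (measurableSet_singleton _)

/-- Three levels. -/
noncomputable def lev (t₁ t₂ : ℝ) (x : ℝ) : Fin 3 := if x ≤ t₁ then 0 else if x ≤ t₂ then 1 else 2

lemma measurable_lev (t₁ t₂ : ℝ) : Measurable (lev t₁ t₂) := by
  unfold lev
  exact Measurable.ite measurableSet_Iic measurable_const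
    (Measurable.ite measurableSet_Iic measurable_const measurable_const)

/-- Weights of three levels. -/
def wt3 (p₁ p₂ : ℝ) : Fin 3 → ℝ := ![p₁, p₂ - p₁, 1 - p₂]

lemma wt3_nonneg {p₁ p₂ : ℝ} (h0 : 0 ≤ p₁) (h1 : p₁ ≤ p₂) (h2 : p₂ ≤ 1) (a : Fin 3) :
    0 ≤ wt3 p₁ p₂ a := by
  fin_cases a <;> simp [wt3] <;> linarith

lemma wt3_sum (p₁ p₂ : ℝ) : ∑ a, wt3 p₁ p₂ a = 1 := by
  simp [Fin.sum_univ_three, wt3]

lemma exists_quantile (μ : Measure ℝ) [IsProbabilityMeasure μ] [NullSingletonClass μ] {p : ℝ} (h0 : 0 < p)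
    (h1 : p < 1) : ∃ t, μ.real (Set.Iic t) = p := by
  have hcont : Continuous (ProbabilityTheory.cdf μ) := by
    rw [continuous_iff_continuousAt]
    intro x
    rw [Monotone.continuousAt_iff_leftLim_eq_rightLim (ProbabilityTheory.monotone_cdf μ)]
    have h2 : μ {x} = 0 := measure_singleton x
    rw [← ProbabilityTheory.measure_cdf μ, StieltjesFunction.measure_singleton] at h2
    rw [ENNReal.ofReal_eq_zero] at h2
    rw [StieltjesFunction.rightLim_eq]
    have h3 := (ProbabilityTheory.monotone_cdf μ).leftLim_le (le_refl x)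
    linarith
  have hb := ProbabilityTheory.tendsto_cdf_atBot μ
  have ht := ProbabilityTheory.tendsto_cdf_atTop μ
  obtain ⟨a, ha⟩ := (hb.eventually (gt_mem_nhds h0)).exists
  obtain ⟨b, hb⟩ := (ht.eventually (lt_mem_nhds h1)).exists
  have hmem : p ∈ Set.range (ProbabilityTheory.cdf μ) :=
    mem_range_of_exists_le_of_exists_ge hcont ⟨a, ha.le⟩ ⟨b, hb.le⟩
  obtain ⟨t, ht⟩ := hmem
  exact ⟨t, by rw [← ProbabilityTheory.cdf_eq_real, ht]⟩

/-- Quantiles for two levels. -/
lemma exists_levels (μ : Measure ℝ) [IsProbabilityMeasure μ] [NullSingletonClass μ] {p₁ p₂ : ℝ}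
    (h0 : 0 < p₁) (h12 : p₁ < p₂) (h1 : p₂ < 1) :
    ∃ t₁ t₂, t₁ < t₂ ∧ (fun a => μ.real (lev t₁ t₂ ⁻¹' {a})) = wt3 p₁ p₂ := by
  obtain ⟨t₁, ht₁⟩ := exists_quantile μ h0 (h12.trans h1)
  obtain ⟨t₂, ht₂⟩ := exists_quantile μ (h0.trans h12) h1
  have hlt : t₁ < t₂ := by
    by_contra hcon
    push Not at hcon
    have := measureReal_mono (μ := μ) (Set.Iic_subset_Iic.mpr hcon)
    linarith
  refine ⟨t₁, t₂, hlt, ?_⟩
  have e0 : lev t₁ t₂ ⁻¹' {0} = Set.Iic t₁ := by
    ext x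
    simp only [lev, Set.mem_preimage, Set.mem_singleton_iff, Set.mem_Iic]
    split_ifs <;> simp_all
  have e1 : lev t₁ t₂ ⁻¹' {1} = Set.Iic t₂ \ Set.Iic t₁ := by
    ext x
    simp only [lev, Set.mem_preimage, Set.mem_singleton_iff, Set.mem_Iic, Set.mem_sdiff]
    split_ifs <;> simp_all
  have e2 : lev t₁ t₂ ⁻¹' {2} = (Set.Iic t₂)ᶜ := by
    ext x
    simp only [lev, Set.mem_preimage, Set.mem_singleton_iff, Set.mem_Iic, Set.mem_compl_iff]
    split_ifs with h1 h2 <;> simp_all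
    exact h1.trans hlt.le
  funext a
  fin_cases a
  · show μ.real (lev t₁ t₂ ⁻¹' {0}) = wt3 p₁ p₂ 0
    rw [e0, ht₁]
    simp [wt3]
  · show μ.real (lev t₁ t₂ ⁻¹' {1}) = wt3 p₁ p₂ 1
    rw [e1, measureReal_sdiff (Set.Iic_subset_Iic.mpr hlt.le) measurableSet_Iic, ht₁, ht₂]
    simp [wt3]
  · show μ.real (lev t₁ t₂ ⁻¹' {2}) = wt3 p₁ p₂ 2
    rw [e2, probReal_compl_eq_one_sub measurableSet_Iic, ht₂]
    simp [wt3]

end Pool.Agent.Q299.PW
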